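import Pool.Agent.W182.PW.Tup

set_option autoImplicit false

/-!
# Five consecutive odd integers containing a prime and three almost primes, in all windows around a
positive proportion of the integers

There are `r` and `c₁, c₂, K > 0` such that a positive proportion of all integers `n` is regular:
every interval `(a, b]` with `a ≤ n ≤ b` and `K log⁴ n ≤ b - a ≤ n` contains between
`c₁ (b - a) / log⁴ n` and `c₂ (b - a) / log⁴ n` integers `m` such that `m` is prime and `m + 2`,
`m + 6`, `m + 8` have at most `r` prime factors each, all larger than `n ^ (1 / r)`.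
-/

namespace Pool.Agent.Results.MP_fc51f7_nt.RegularWindows

open Finset Filter

/-- `N` has at most `r` prime factors (with multiplicity), all of them larger than `z`. -/
def AlmostPrime (r : ℕ) (z : ℝ) (N : ℕ) : Prop :=
  N.primeFactorsList.length ≤ r ∧ ∀ q : ℕ, q.Prime → q ∣ N → z < (q : ℝ)

/-- `m` is prime and `m + 2`, `m + 6`, `m + 8` are almost primes (so `{m, m + 2, ..., m + 8}` contains
a prime and three almost primes; the middle element is divisible by `3`). -/
def AlmostGood (r : ℕ) (z : ℝ) (m : ℕ) : Prop :=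
  m.Prime ∧ AlmostPrime r z (m + 2) ∧ AlmostPrime r z (m + 6) ∧ AlmostPrime r z (m + 8)

open Classical in
/-- `n` is regular. -/
def Regular (r : ℕ) (c₁ c₂ K : ℝ) (n : ℕ) : Prop :=
  ∀ a b : ℕ, a ≤ n → n ≤ b → K * Real.log n ^ 4 ≤ (b : ℝ) - a → (b : ℝ) - a ≤ n →
    c₁ * ((b : ℝ) - a) / Real.log n ^ 4 ≤
      (((Finset.Ioc a b).filter (fun m => AlmostGood r ((n : ℝ) ^ (1 / (r : ℝ))) m)).card : ℝ) ∧
    (((Finset.Ioc a b).filter (fun m => AlmostGood r ((n : ℝ) ^ (1 / (r : ℝ))) m)).card : ℝ) ≤
      c₂ * ((b : ℝ) - a) / Real.log n ^ 4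

lemma good_eq : Pool.Agent.W182.PW.TupS {2, 6, 8} = AlmostGood := by
  funext r z m
  apply propext
  unfold Pool.Agent.W182.PW.TupS AlmostGood AlmostPrime
  simp only [Finset.mem_insert, Finset.mem_singleton, forall_eq_or_imp, forall_eq]

open Classical in
/-- **Five consecutive odd integers, almost primes: regular windows.** For some `r` and positive
`c₁, c₂, K, κ` and all large `x` at least `κ x` of the integers `n` in `[1, x]` are regular. -/
theorem result :
    ∃ (r : ℕ) (c₁ c₂ K κ : ℝ), 0 < c₁ ∧ 0 < c₂ ∧ 0 < K ∧ 0 < κ ∧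
    ∀ᶠ x : ℕ in atTop,
      κ * x ≤ (((Finset.Icc 1 x).filter (fun n => Regular r c₁ c₂ K n)).card : ℝ) := by
  have h := Pool.Agent.W182.PW.main_tuple {2, 6, 8} (by decide) (Pool.Agent.W182.PW.adm_of _ 12 (by decide) (by norm_num) (by
      intro p hp hpp
      interval_cases p
      · exact absurd hpp Nat.not_prime_zero
      · exact absurd hpp Nat.not_prime_one
      · exact ⟨1, by decide⟩
      · exact ⟨2, by decide⟩
      · exact absurd hpp (by norm_num)
      · exact ⟨1, by decide⟩
      · exact absurd hpp (by norm_num)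
      · exact ⟨2, by decide⟩
      · exact absurd hpp (by norm_num)
      · exact absurd hpp (by norm_num)
      · exact absurd hpp (by norm_num)
      · exact ⟨2, by decide⟩))
  rw [good_eq] at h
  exact h

end Pool.Agent.Results.MP_fc51f7_nt.RegularWindows
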